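import Pool.Agent.N317.FX.Fin

/-!
# Fixed point sets of real analytic nonexpansive maps of finite-dimensional normed spaces
-/

set_option autoImplicit false

open Topology Filter Set

namespace Pool.Agent.Results.MP_769694_an.FixSubspace

/-- `M` is a Lipschitz manifold: every `p ∈ M` has a relatively open neighbourhood `M ∩ U` in `M`
and a map `φ` which is bi-Lipschitz on `M ∩ U` and takes `M ∩ U` onto an open subset of some
`ℝ ^ k`, `k ≥ 0`. -/
def IsLipschitzManifold {X : Type*} [NormedAddCommGroup X] (M : Set X) : Prop :=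
  ∀ p ∈ M, ∃ U : Set X, IsOpen U ∧ p ∈ U ∧
    ∃ (k : ℕ) (φ : X → EuclideanSpace ℝ (Fin k)) (C : ℝ), 0 < C ∧
      (∀ x ∈ M ∩ U, ∀ y ∈ M ∩ U, dist (φ x) (φ y) ≤ C * dist x y ∧
        dist x y ≤ C * dist (φ x) (φ y)) ∧
      IsOpen (φ '' (M ∩ U))

open Pool.Agent.N317.FX in
/-- For every norm on a finite-dimensional real vector space `X` and every real analytic
nonexpansive `f : X → X` with a fixed point, the set `Fix(f)`, with the metric of the norm, is
isometric to a linear subspace of `X`; in particular it is a Lipschitz manifold. -/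
theorem result {X : Type*} [NormedAddCommGroup X] [NormedSpace ℝ X] [FiniteDimensional ℝ X]
    (f : X → X) (hf : ∀ x y, ‖f x - f y‖ ≤ ‖x - y‖) (ha : ∀ x, AnalyticAt ℝ f x)
    (hfix : ∃ p, f p = p) :
    (∃ T : Submodule ℝ X, Nonempty ({x : X | f x = x} ≃ᵢ T)) ∧
      IsLipschitzManifold {x : X | f x = x} := by
  obtain ⟨p, hp⟩ := hfix
  obtain ⟨ρ, hρ⟩ := exists_RS hf ha hp
  have hd : DenseReg {x : X | f x = x} := by
    intro V hV z hz hzV
    obtain ⟨q, hq, T, hr⟩ := exists_reg (h := fun x => f x - x)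
      (fun x => (ha x).sub analyticAt_id) hV hzV (sub_eq_zero.2 hz)
    have e : {x : X | f x - x = 0} = {x : X | f x = x} := by
      ext x; exact sub_eq_zero
    rw [e] at hr
    exact ⟨q, hq, T, hr⟩
  obtain ⟨q, -, T, hr⟩ := hd univ isOpen_univ p hp (mem_univ _)
  obtain ⟨Λ⟩ := exists_iso hρ hd hr
  refine ⟨⟨T, ⟨Λ⟩⟩, ?_⟩
  let e : T ≃L[ℝ] EuclideanSpace ℝ (Fin (Module.finrank ℝ T)) := toEuclidean
  obtain ⟨A, hA⟩ : ∃ A : NNReal, LipschitzWith A e := ⟨_, e.lipschitz⟩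
  obtain ⟨B, hB⟩ : ∃ B : NNReal, LipschitzWith B e.symm := ⟨_, e.symm.lipschitz⟩
  have hA0 : (0 : ℝ) ≤ A := A.2
  have hB0 : (0 : ℝ) ≤ B := B.2
  intro z _
  refine ⟨univ, isOpen_univ, mem_univ _, Module.finrank ℝ T,
    fun x => e (Λ ⟨ρ x, hρ.mem x⟩), A + B + 1, by positivity, ?_, ?_⟩
  · rintro x ⟨hx, -⟩ y ⟨hy, -⟩
    have hxy : dist (Λ ⟨ρ x, hρ.mem x⟩) (Λ ⟨ρ y, hρ.mem y⟩) = dist x y := by
      rw [Λ.dist_eq, Subtype.dist_eq]
      change dist (ρ x) (ρ y) = dist x y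
      rw [hρ.fix x hx, hρ.fix y hy]
    constructor
    · have h1 := hA.dist_le_mul (Λ ⟨ρ x, hρ.mem x⟩) (Λ ⟨ρ y, hρ.mem y⟩)
      rw [hxy] at h1
      refine h1.trans ?_
      have : (A : ℝ) ≤ A + B + 1 := by linarith
      gcongr
    · have h1 := hB.dist_le_mul (e (Λ ⟨ρ x, hρ.mem x⟩)) (e (Λ ⟨ρ y, hρ.mem y⟩))
      rw [e.symm_apply_apply, e.symm_apply_apply, hxy] at h1
      refine h1.trans ?_
      have : (B : ℝ) ≤ A + B + 1 := by linarith
      gcongr
  · have : (fun x => e (Λ ⟨ρ x, hρ.mem x⟩)) '' ({x : X | f x = x} ∩ univ) = univ := by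
      rw [eq_univ_iff_forall]
      intro v
      refine ⟨(Λ.symm (e.symm v) : X), ⟨(Λ.symm (e.symm v)).2, mem_univ _⟩, ?_⟩
      have h1 : (⟨ρ (Λ.symm (e.symm v) : X), hρ.mem _⟩ : {x : X | f x = x}) =
          Λ.symm (e.symm v) := Subtype.ext (hρ.fix _ (Λ.symm (e.symm v)).2)
      change e (Λ ⟨ρ (Λ.symm (e.symm v) : X), hρ.mem _⟩) = v
      rw [h1, Λ.apply_symm_apply, e.apply_symm_apply]
    rw [this]
    exact isOpen_univ

end Pool.Agent.Results.MP_769694_an.FixSubspace
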